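import Pool.Agent.MP_fcd29e_an.H11.CS

/-!
No base points on the cone, and positivity of the weight.
-/

set_option autoImplicit false

open Complex Pool.Agent.MP_fcd29e_an.H11
open scoped ComplexConjugate

namespace Pool.Agent.MP_fcd29e_an.H84

theorem tp_norm {m : ℕ} (j : Fin m) : ‖tp j‖ < m := by
  rw [tp, norm_mul, norm_I, one_mul, Complex.norm_natCast]
  exact_mod_cast j.2

theorem tp_sub {m : ℕ} {i j : Fin m} (h : i ≠ j) : 1 ≤ ‖tp i - tp j‖ := by
  have h1 : tp i - tp j = I * (((i : ℕ) - (j : ℕ) : ℤ) : ℂ) := by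
    rw [tp, tp]
    push_cast
    ring
  rw [h1, norm_mul, norm_I, one_mul, Complex.norm_intCast]
  have h2 : ((i : ℕ) - (j : ℕ) : ℤ) ≠ 0 := fun e => h (Fin.ext (by omega))
  exact_mod_cast Int.one_le_abs h2

theorem smul_snd {ι : Type} {a : ℂ} (ha : a ≠ 0) {v : V ι} (h : ∀ k, (a • v).2.2 k = 0) :
    v.2.2 = 0 := by
  funext k
  have := h k
  simp only [Prod.smul_snd, Pi.smul_apply, smul_eq_mul, mul_eq_zero, ha, false_or] at this
  exact this

theorem sxp (hGR : SGR) (hXU : SXU) : SXP := by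
  intro r m n _ C c S om F Fi Fr fc fi fh hn hR hF hP hNV s hs e w φ hA x hx
  obtain ⟨h1, h2, h3, -, -⟩ := hXU r m n hn s hs
  obtain ⟨hrel, hA⟩ := hA
  obtain ⟨hE, hW⟩ := hrel x
  have hl : ∀ l : ℝ, 0 < l → (l : ℂ) • x ∈ cone (Fin r) := (hGR.cn _ x hx).2.2.2.1
  have hz : ∀ i, s none ≠ 0 → s (some i) = 0 → (s (some 0) / s none) ^ n = tp i := by
    intro i h0 hi
    rw [← h3 h0 i, hi, zero_div, zero_pow (by omega), add_zero]
  have wA : w x = 0 → ∀ k, (e x none).2.2 k = 0 := fun h k => by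
    rw [← (hW.1 k).1, h, Pi.zero_apply, mul_zero]
  have wB : w x = 0 → ∀ k, (e x (some none)).2.2 k = 0 := fun h k => by
    rw [← (hW.1 k).2, h, Pi.zero_apply, mul_zero]
  rcases hA with ⟨j, G, hG, h0, hj, e1, e2, e3⟩ | ⟨G, hG, h0, hj, e1, e2, e3⟩ |
    ⟨M, hM, h0, hj, hb, e1, e3⟩
  · have hGx := hG.fut x hx
    obtain ⟨-, p1, -, p2⟩ := hP.cell j _ hj _ hGx
    refine ⟨fun hw => ?_, by rw [e3 x hx]; exact p1, fun l h => by
      rw [e3 _ (hl l h), e3 x hx, map_smul]; exact p2 l h⟩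
    by_cases hsj : s (some j) = 0
    · have hκ : (∏ i ∈ Finset.univ.erase j, s (some i)) * s none ^ (4 * m + 1) ≠ 0 :=
        mul_ne_zero (Finset.prod_ne_zero_iff.2 fun i hi =>
          (h2 j hsj).2 i (Finset.ne_of_mem_erase hi)) (pow_ne_zero _ h0)
      obtain ⟨r1, r2, r3⟩ := hE.2.2.2 j
      have r4 := fun l k => (hW.2 j l k).2
      rw [e2 hsj x] at r3 r4
      generalize (∏ i ∈ Finset.univ.erase j, s (some i)) * s none ^ (4 * m + 1) = κ at hκ r3 r4
      rw [hsj] at r1 r2 r4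
      rw [zero_pow two_ne_zero, zero_smul, eq_comm, smul_eq_zero] at r1
      rw [zero_smul, eq_comm, smul_eq_zero] at r2
      have r5 := r1.resolve_left (pow_ne_zero _ h0)
      have r6 := r2.resolve_left h0
      obtain ⟨-, -, -, v1, -, -, -, -, v2⟩ := hGR.vec _ c S (om j) (hR.ax j)
      have hU := ((hGR.op (Fin r)).2.2.2.2 _ (hF.an j (tp j) (by simp)).2).1
      have r7 : Ring.inverse (F (tp j)) (e x none) = Pm c S (om j) (κ • G x) := by
        rw [r3]
        simp only [P0, ContinuousLinearMap.sub_apply, ContinuousLinearMap.one_apply, r5,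
          sub_zero] at r6
        exact sub_eq_zero.1 r6
      have r8 : e x none = (B (κ • G x) (ep c S (om j)) / 2) • F (tp j) (em c S (om j)) := by
        rw [← map_smul, ← (v2 _).2.1, ← r7, ← ContinuousLinearMap.mul_apply,
          Ring.mul_inverse_cancel _ hU, ContinuousLinearMap.one_apply]
      have r9 : B (κ • G x) (ep c S (om j)) = 0 := by
        by_contra hb
        exact (hNV.pole j).1 (smul_snd (div_ne_zero hb two_ne_zero) (r8 ▸ wA hw))
      have hb := fun y => (hGR.bil _ (G x) (ep c S (om j)) y κ)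
      have r10 : B (G x) (ep c S (om j)) = 0 := by
        rw [(hb _).2.2.2.1] at r9
        exact (mul_eq_zero.1 r9).resolve_left hκ
      have r11 : B (κ • G x) (em c S (om j)) = 0 := by
        have := (hb 0).2.2.2.2.1
        rw [hGx.1, v1, r10, map_zero] at this
        rw [(hb _).2.2.2.1, this, mul_zero]
      have r12 : P0 c S (om j) (κ • G x) = κ • G x := by
        simp only [P0, ContinuousLinearMap.sub_apply, ContinuousLinearMap.one_apply]
        rw [(v2 _).1, (v2 _).2.1, r9, r11]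
        simp
      obtain ⟨l, k, hlk⟩ := (hNV.pole j).2 _ hGx r10
      have r13 := r4 l k
      rw [hw, Pi.zero_apply, mul_zero, zero_smul, zero_add, r12, smul_smul, map_smul] at r13
      refine mul_ne_zero (mul_ne_zero h0 hκ) hlk ?_
      rw [r13]
      simp only [mnr, Prod.smul_snd, Pi.smul_apply, smul_eq_mul]
      ring
    · have hκ : (∏ i, s (some i)) * s none ^ (4 * m) ≠ 0 := by
        refine mul_ne_zero (Finset.prod_ne_zero_iff.2 fun i _ hi => ?_) (pow_ne_zero _ h0)
        have h4 := tp_sub (i := i) (j := j) fun h => hsj (h ▸ hi)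
        rw [← hz i h0 hi, ← h3 h0 j, add_sub_cancel_left] at h4
        linarith
      have h4 := wA hw
      rw [e1 hsj x, ← h3 h0 j] at h4
      exact hNV.cell _ hGx j _ (div_ne_zero hsj h0) hj (smul_snd hκ h4)
  · have hGx := hG.fut x hx
    obtain ⟨-, p1, -, p2⟩ := hP.far _ hj _ hGx
    refine ⟨fun hw => ?_, by rw [e3 x hx]; exact p1, fun l h => by
      rw [e3 _ (hl l h), e3 x hx, map_smul]; exact p2 l h⟩
    by_cases hσ : s none = 0
    · have h4 := wB hw
      rw [e2 hσ x] at h4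
      have h5 := smul_snd (mul_ne_zero (Finset.prod_ne_zero_iff.2 fun i _ => h1 hσ i)
        (pow_ne_zero _ h0)) h4
      obtain ⟨a, ξ, ha, h6, h7⟩ := (hGR.mem _ _).1 hGx
      rw [h7] at h5
      have h8 : ξ = 0 := h5
      rw [h8] at h6
      simp only [nsq, Pi.zero_apply, norm_zero, ne_eq, OfNat.ofNat_ne_zero, not_false_eq_true,
        zero_pow, Finset.sum_const_zero] at h6
      exact (pow_pos ha 2).ne h6
    · have h5 : (m : ℝ) + 2 < ‖(s (some 0) / s none) ^ n‖ := by
        have h6 : 0 < ‖(s (some 0) / s none) ^ n‖ :=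
          norm_pos_iff.2 (pow_ne_zero _ (div_ne_zero h0 hσ))
        rw [← inv_div, inv_pow, norm_inv, ← div_eq_mul_inv, div_lt_one h6] at hj
        exact hj
      have hκ : (∏ i, s (some i)) * s none ^ (4 * m) ≠ 0 := by
        refine mul_ne_zero (Finset.prod_ne_zero_iff.2 fun i _ hi => ?_) (pow_ne_zero _ hσ)
        rw [hz i hσ hi] at h5
        linarith [tp_norm i]
      have h4 := wA hw
      rw [e1 hσ x] at h4
      exact hNV.far _ hGx _ h5 (smul_snd hκ h4)
  · obtain ⟨p0, p1, p2⟩ := hP.hubp _ M hM hj hb x hx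
    refine ⟨fun hw => ?_, by rw [e3 x hx]; exact p1, fun l h => by
      rw [e3 _ (hl l h), e3 x hx]; exact p2 l h⟩
    have hκ : (∏ i, s (some i)) * s none ^ (4 * m) ≠ 0 := by
      refine mul_ne_zero (Finset.prod_ne_zero_iff.2 fun i _ hi => ?_) (pow_ne_zero _ h0)
      have h4 := hj i
      rw [hz i h0 hi, sub_self, norm_zero] at h4
      linarith
    have h4 := wA hw
    rw [e1 x] at h4
    exact p0 (smul_snd hκ h4)

end Pool.Agent.MP_fcd29e_an.H84
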