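import Pool.Agent.MP_fcd29e_an.H81.Spec2

/-! Row `D3`: the dichotomy thick or thin. -/

set_option autoImplicit false

open Pool.Agent.MP_fcd29e_an.H81 MeasureTheory Complex Set Filter Topology Metric
open scoped ContDiff ComplexConjugate ENNReal NNReal

namespace Pool.Agent.MP_fcd29e_an.H84

variable {N : ℕ}

theorem av_smul (ρ : E N → ℝ) (z v : E N) (c : ℂ) : av ρ z (c • v) = c * av ρ z v := by
  simp only [av, Finset.mul_sum, PiLp.smul_apply, smul_eq_mul]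
  exact Finset.sum_congr rfl fun j _ => by ring

theorem av_rsmul (ρ : E N → ℝ) (z v : E N) (s : ℝ) : av ρ z (s • v) = s * av ρ z v := by
  rw [← av_smul]
  rfl

theorem av_sub (ρ : E N → ℝ) (z v w : E N) : av ρ z (v - w) = av ρ z v - av ρ z w := by
  simp only [av, PiLp.sub_apply, mul_sub, Finset.sum_sub_distrib]

/-- the points at which `K` is not thin -/
def K2 (ρ : E N → ℝ) (K : Set (E N)) : Set (E N) :=
  {p | p ∈ K ∧ ∃ c > 0, ∀ ε > 0, ∃ x ∈ K ∩ ball p ε, ∃ y ∈ K ∩ ball p ε,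
    c * ‖y - x‖ < ‖av ρ x (y - x)‖}

theorem KS.ne0 {ρ : E N → ℝ} {K : Set (E N)} (h : KS ρ K) {z : E N} (hz : z ∈ K) : z ≠ 0 :=
  fun h0 => h.cone.1 (h0 ▸ hz)

theorem k2_smul (pf : StmtPF) {ρ : E N → ℝ} {K : Set (E N)} (hd : Dom ρ) (hK : KS ρ K)
    (a : ℂ) (ha : a ≠ 0) {p : E N} (hp : p ∈ K2 ρ K) : a • p ∈ K2 ρ K := by
  obtain ⟨hpK, c, hc, h⟩ := hp
  have hna : 0 < ‖a‖ := norm_pos_iff.2 ha
  refine ⟨hK.cone.2 a ha p hpK, c / ‖a‖, div_pos hc hna, fun ε hε => ?_⟩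
  obtain ⟨x, ⟨hx, hx'⟩, y, ⟨hy, hy'⟩, hxy⟩ := h (ε / ‖a‖) (div_pos hε hna)
  have hb : ∀ z ∈ ball p (ε / ‖a‖), a • z ∈ ball (a • p) ε := by
    intro z hz
    rw [mem_ball, dist_smul₀]
    rw [mem_ball, lt_div_iff₀ hna] at hz
    linarith
  refine ⟨a • x, ⟨hK.cone.2 a ha x hx, hb x hx'⟩, a • y, ⟨hK.cone.2 a ha y hy, hb y hy'⟩, ?_⟩
  have h1 : av ρ (a • x) (a • y - a • x) = av ρ x (y - x) := by
    rw [← smul_sub, av_smul]
    have h2 := (((pf N).2.2.2 ρ hd).2.2.1 x (KS.ne0 hK hx)).2.2.2.1 a ha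
    simp only [av, h2.1, Finset.mul_sum]
    exact Finset.sum_congr rfl fun j _ => by field_simp
  rw [h1, ← smul_sub, norm_smul, ← mul_assoc, div_mul_cancel₀ _ hna.ne']
  exact hxy

theorem ks_closure (pf : StmtPF) {ρ : E N → ℝ} {K : Set (E N)} (hd : Dom ρ) (hK : KS ρ K)
    (hne : (K2 ρ K).Nonempty) :
    closure (K2 ρ K) \ {0} ⊆ K ∧ KS ρ (closure (K2 ρ K) \ {0}) := by
  have hsub : closure (K2 ρ K) \ {0} ⊆ K := by
    rintro z ⟨hz, hz0⟩
    have : closure (K2 ρ K) ⊆ insert 0 K :=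
      closure_minimal (fun w hw => mem_insert_of_mem _ hw.1) hK.closed
    rcases this hz with h | h
    · exact absurd h hz0
    · exact h
  refine ⟨hsub, ⟨by simp, fun c hc z hz => ⟨?_, ?_⟩⟩, ?_, ?_, fun z hz => hK.bd z (hsub hz),
    fun z hz => hK.null z (hsub hz)⟩
  · exact map_mem_closure (f := fun w => c • w) (continuous_const_smul c) hz.1
      fun w hw => k2_smul pf hd hK c hc hw
  · have := hz.2
    simp only [mem_singleton_iff] at this ⊢
    exact smul_ne_zero hc this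
  · rw [insert_sdiff_singleton, ← singleton_union]
    exact isClosed_singleton.union isClosed_closure
  · obtain ⟨p, hp⟩ := hne
    exact ⟨p, subset_closure hp, KS.ne0 hK hp.1⟩

/-- two trajectories in the ball stay close -/
theorem traj_dist {X : E N → E N} {p : E N} {r τ : ℝ} {L : ℝ≥0} (hr : 0 < r)
    (hL : LipschitzOnWith L X (closedBall p (2 * r))) {γ η : ℝ → E N}
    (hγ : ∀ t ∈ Icc 0 τ, HasDerivAt γ (X (γ t)) t ∧ γ t ∈ closedBall p r)
    (hη : ∀ t ∈ Icc 0 τ, HasDerivAt η (X (η t)) t ∧ η t ∈ closedBall p r) :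
    ∀ t ∈ Icc 0 τ, dist (γ t) (η t) ≤ dist (γ 0) (η 0) * Real.exp (L * τ) := by
  intro t ht
  have hs : closedBall p r ⊆ closedBall p (2 * r) := closedBall_subset_closedBall (by linarith)
  have := dist_le_of_trajectories_ODE_of_mem (v := fun _ => X) (s := fun _ => closedBall p (2 * r))
    (K := L) (f := γ) (g := η) (a := 0) (b := τ) (δ := dist (γ 0) (η 0)) (fun _ _ => hL)
    (fun s hs' => (hγ s hs').1.continuousAt.continuousWithinAt)
    (fun s hs' => (hγ s (Ico_subset_Icc_self hs')).1.hasDerivWithinAt)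
    (fun s hs' => hs (hγ s (Ico_subset_Icc_self hs')).2)
    (fun s hs' => (hη s hs').1.continuousAt.continuousWithinAt)
    (fun s hs' => (hη s (Ico_subset_Icc_self hs')).1.hasDerivWithinAt)
    (fun s hs' => hs (hη s (Ico_subset_Icc_self hs')).2) le_rfl t ht
  refine this.trans (mul_le_mul_of_nonneg_left (Real.exp_le_exp.2 ?_) dist_nonneg)
  exact mul_le_mul_of_nonneg_left (by linarith [ht.2]) L.2

/-- one-sided first-order condition along a curve -/
theorem inner_nonpos {x p w : E N} {γ : ℝ → E N} {τ : ℝ} (hτ : 0 < τ) (h0 : γ 0 = p)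
    (hγ : HasDerivAt γ w 0) (hmin : ∀ t ∈ Icc 0 τ, dist x p ≤ dist x (γ t)) :
    inner ℝ (x - p) w ≤ 0 := by
  have hd : HasDerivAt (fun t => ‖x - γ t‖ ^ 2) (2 * inner ℝ (x - γ 0) (-w)) 0 := by
    have := (hγ.const_sub x).norm_sq
    simpa using this
  have hm : IsLocalMinOn (fun t => ‖x - γ t‖ ^ 2) (Icc 0 τ) 0 := by
    refine IsMinOn.localize fun t ht => ?_
    have := hmin t ht
    simp only [mem_ofPred_eq, h0]
    rw [dist_eq_norm, dist_eq_norm] at this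
    exact pow_le_pow_left₀ (norm_nonneg _) this 2
  have hc : τ ∈ posTangentConeAt (Icc (0 : ℝ) τ) 0 := by
    have := sub_mem_posTangentConeAt_of_segment_subset (s := Icc (0 : ℝ) τ) (x := 0) (y := τ)
      (by rw [segment_eq_Icc hτ.le])
    simpa using this
  have := hm.hasFDerivWithinAt_nonneg hd.hasFDerivAt.hasFDerivWithinAt hc
  rw [h0, inner_neg_right] at this
  simp only [ContinuousLinearMap.toSpanSingleton_apply, smul_eq_mul] at this
  nlinarith

theorem pn_closure (pf : StmtPF) (hg : StmtGR) (hf : StmtFLW) (hc : StmtCH) {ρ : E N → ℝ}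
    {K : Set (E N)} (hd : Dom ρ) (hK : KS ρ K) (hP : PN ρ K) :
    PN ρ (closure (K2 ρ K) \ {0}) := by
  have hsub : closure (K2 ρ K) ⊆ insert 0 K :=
    closure_minimal (fun w hw => mem_insert_of_mem _ hw.1) hK.closed
  have main : ∀ x, ∀ p ∈ closure (K2 ρ K) \ {0}, dist x p = infDist x (closure (K2 ρ K) \ {0}) →
      ∀ w, ‖w‖ ≤ 1 → av ρ p w = 0 → inner ℝ (x - p) w ≤ 0 := by
    intro x p hp hx w hw haw
    have hpK : p ∈ K := (hsub hp.1).resolve_left hp.2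
    have hreg : p ∈ Reg ρ := (((pf N).2.2.2 ρ hd).2.2.2.2.2.2 p (KS.ne0 hK hpK) (hK.bd p hpK)).1
    obtain ⟨r, hr, τ, hτ, L, -, h4, hR, hne, hw'⟩ := hf N ρ hd p hreg 1 one_pos
    obtain ⟨hL, hX, hfl⟩ := hw' w hw
    set X := Xf ρ (nv ρ p) w with hXdef
    obtain ⟨C, hC, hch⟩ := hc N ρ K hd hK p r τ L w hR hr hne hL
    -- trajectories that start in `K` stay in `K`
    have stay : ∀ γ : ℝ → E N, γ 0 ∈ K →
        (∀ t ∈ Icc 0 τ, HasDerivAt γ (X (γ t)) t ∧ γ t ∈ closedBall p r) →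
        ∀ t ∈ Icc 0 τ, γ t ∈ K := fun γ h0 hγ t ht =>
      (hg N ρ K hK hP p hpK r τ 0 L X γ (fun t => X (γ t)) hr h4 hL
        (fun z hz => (hX z hz.2).2.1) h0
        (fun s hs => ⟨(hγ s hs).1, (hγ s hs).2, by simp⟩) t ht).2 rfl
    set M := Real.exp (L * τ) with hM
    have hMpos : 0 < M := Real.exp_pos _
    -- trajectories that start in `K2` stay in `K2`
    have stay2 : ∀ γ : ℝ → E N, γ 0 ∈ K2 ρ K → γ 0 ∈ ball p (r / 2) →
        (∀ t ∈ Icc 0 τ, HasDerivAt γ (X (γ t)) t ∧ γ t ∈ closedBall p r) →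
        ∀ t ∈ Icc 0 τ, γ t ∈ K2 ρ K := by
      intro γ h0 hb hγ t ht
      obtain ⟨h0K, c, hc0, hxy⟩ := h0
      refine ⟨stay γ h0K hγ t ht, c / (2 * C * M), by positivity, fun ε hε => ?_⟩
      have hb' : 0 < r / 2 - dist (γ 0) p := by
        rw [mem_ball] at hb
        linarith
      set δ := min (min (r / 2 - dist (γ 0) p) (ε / M)) (c / (4 * C)) with hδ
      have hδ0 : 0 < δ := by positivity
      have hδ1 : δ ≤ r / 2 - dist (γ 0) p := (min_le_left _ _).trans (min_le_left _ _)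
      have hδ2 : δ ≤ ε / M := (min_le_left _ _).trans (min_le_right _ _)
      have hδ3 : δ ≤ c / (4 * C) := min_le_right _ _
      obtain ⟨a, ⟨haK, ha⟩, b, ⟨hbK, hb2⟩, hab⟩ := hxy δ hδ0
      have hin : ∀ z ∈ ball (γ 0) δ, z ∈ closedBall p (r / 2) := by
        intro z hz
        rw [mem_ball] at hz
        rw [mem_closedBall]
        linarith [dist_triangle z (γ 0) p]
      obtain ⟨ξ, hξ0, hξ⟩ := hfl a (hin a ha)
      obtain ⟨η, hη0, hη⟩ := hfl b (hin b hb2)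
      have hξK := stay ξ (hξ0 ▸ haK) hξ
      have hηK := stay η (hη0 ▸ hbK) hη
      have hclose : ∀ ζ : ℝ → E N, ζ 0 ∈ ball (γ 0) δ →
          (∀ t ∈ Icc 0 τ, HasDerivAt ζ (X (ζ t)) t ∧ ζ t ∈ closedBall p r) →
          ζ t ∈ ball (γ t) ε := by
        intro ζ hζ0 hζ
        have h1 := traj_dist hr hL hζ hγ t ht
        rw [mem_ball] at hζ0 ⊢
        have h2 : dist (ζ 0) (γ 0) * M < ε := by
          rw [← lt_div_iff₀ hMpos]
          linarith
        linarith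
      refine ⟨ξ t, ⟨hξK t ht, hclose ξ (hξ0 ▸ ha) hξ⟩, η t, ⟨hηK t ht, hclose η (hη0 ▸ hb2) hη⟩, ?_⟩
      have h1 := hch ξ η (fun s hs => ⟨(hξ s hs).1, hξK s hs, (hξ s hs).2⟩)
        (fun s hs => ⟨(hη s hs).1, hηK s hs, (hη s hs).2⟩) t ht
      have h2 := traj_dist hr hL hη hξ t ht
      rw [hξ0, hη0] at h1 h2
      rw [dist_eq_norm, dist_eq_norm] at h2
      have h3 : ‖b - a‖ ≤ 2 * δ := by
        rw [← dist_eq_norm]
        rw [mem_ball] at ha hb2
        linarith [dist_triangle_right b a (γ 0)]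
      have h4 : C * ‖b - a‖ ≤ c / 2 := by
        have : 2 * δ * C ≤ c / 2 := by
          rw [le_div_iff₀ (by positivity)] at hδ3
          linarith
        nlinarith
      have h5 : C * ‖b - a‖ ^ 2 ≤ c / 2 * ‖b - a‖ := by
        rw [sq, ← mul_assoc]
        exact mul_le_mul_of_nonneg_right h4 (norm_nonneg _)
      have h6 : c / 2 * ‖b - a‖ < C * ‖av ρ (ξ t) (η t - ξ t)‖ := by linarith
      calc c / (2 * C * M) * ‖η t - ξ t‖ ≤ c / (2 * C * M) * (‖b - a‖ * M) :=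
            mul_le_mul_of_nonneg_left h2 (by positivity)
        _ = c / 2 * ‖b - a‖ / C := by field_simp
        _ < ‖av ρ (ξ t) (η t - ξ t)‖ := by
            rw [div_lt_iff₀ hC]
            linarith
    obtain ⟨γ, hγ0, hγ⟩ := hfl p (mem_closedBall_self (by linarith))
    have hcl : ∀ t ∈ Icc 0 τ, γ t ∈ closure (K2 ρ K) \ {0} := by
      intro t ht
      refine ⟨Metric.mem_closure_iff.2 fun ε hε => ?_, KS.ne0 hK (stay γ (hγ0 ▸ hpK) hγ t ht)⟩
      obtain ⟨q, hq, hpq⟩ := Metric.mem_closure_iff.1 hp.1 (min (r / 2) (ε / M)) (by positivity)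
      have hq1 : q ∈ ball p (r / 2) := by
        rw [mem_ball, dist_comm]
        exact hpq.trans_le (min_le_left _ _)
      obtain ⟨ζ, hζ0, hζ⟩ := hfl q (ball_subset_closedBall hq1)
      refine ⟨ζ t, stay2 ζ (hζ0 ▸ hq) (hζ0 ▸ hq1) hζ t ht, ?_⟩
      have h1 := traj_dist hr hL hγ hζ t ht
      rw [hγ0, hζ0] at h1
      have h2 : dist p q * M < ε := by
        rw [← lt_div_iff₀ hMpos]
        exact hpq.trans_le (min_le_right _ _)
      linarith
    have hXp : X p = w := by simp [hXdef, Xf, haw]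
    have hd0 := (hγ 0 ⟨le_rfl, hτ.le⟩).1
    rw [hγ0, hXp] at hd0
    exact inner_nonpos hτ hγ0 hd0 fun t ht => hx ▸ infDist_le_dist_of_mem (hcl t ht)
  intro x p hp hx w haw
  have hs : 0 < (1 + ‖w‖)⁻¹ := by positivity
  have hn : ‖(1 + ‖w‖)⁻¹ • w‖ ≤ 1 := by
    rw [norm_smul, Real.norm_of_nonneg hs.le, inv_mul_le_iff₀ (by positivity)]
    linarith
  have h1 := main x p hp hx ((1 + ‖w‖)⁻¹ • w) hn (by rw [av_rsmul, haw, mul_zero])
  have h2 := main x p hp hx ((-(1 + ‖w‖)⁻¹) • w) (by rwa [neg_smul, norm_neg])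
    (by rw [av_rsmul, haw, mul_zero])
  rw [inner_smul_right] at h1 h2
  nlinarith

/-- a limit direction of chords -/
theorem exists_dir {ρ : E N → ℝ} {K : Set (E N)} (hd : Dom ρ) (hK : KS ρ K) {p : E N}
    (hp : p ∈ K2 ρ K) : ∃ v : E N, av ρ p v ≠ 0 ∧
      ∀ (F : E N → ℂ), ContDiffAt ℝ 1 F p → (∀ᶠ z in 𝓝 p, z ∈ K → F z = 0) →
        fderiv ℝ F p v = 0 := by
  obtain ⟨hpK, c, hc, h⟩ := hp
  set S : Set (E N × E N) := {q | q.1 ∈ K ∧ q.2 ∈ K ∧ c * ‖q.1 - q.2‖ < ‖av ρ q.2 (q.1 - q.2)‖}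
    with hS
  have hcl : (p, p) ∈ closure S := by
    refine Metric.mem_closure_iff.2 fun ε hε => ?_
    obtain ⟨x, ⟨hx, hx'⟩, y, ⟨hy, hy'⟩, hxy⟩ := h ε hε
    refine ⟨(y, x), ⟨hy, hx, hxy⟩, ?_⟩
    rw [Prod.dist_eq, max_lt_iff]
    rw [mem_ball, dist_comm] at hx' hy'
    exact ⟨hy', hx'⟩
  have hne : (𝓝[S] (p, p)).NeBot := mem_closure_iff_nhdsWithin_neBot.1 hcl
  set U : Ultrafilter (E N × E N) := Ultrafilter.of (𝓝[S] (p, p)) with hU
  have hUle : (U : Filter (E N × E N)) ≤ 𝓝[S] (p, p) := Ultrafilter.of_le _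
  have hUS : ∀ᶠ q in (U : Filter (E N × E N)), q ∈ S := hUle self_mem_nhdsWithin
  have hUp : (U : Filter (E N × E N)) ≤ 𝓝 (p, p) := hUle.trans nhdsWithin_le_nhds
  set u : E N × E N → E N := fun q => ‖q.1 - q.2‖⁻¹ • (q.1 - q.2) with hu
  have hpos : ∀ q ∈ S, 0 < ‖q.1 - q.2‖ := by
    intro q hq
    refine norm_pos_iff.2 fun h0 => ?_
    have := hq.2.2
    rw [h0] at this
    simp [av] at this
  have hsph : ∀ q ∈ S, u q ∈ sphere (0 : E N) 1 := by
    intro q hq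
    rw [mem_sphere_zero_iff_norm, hu]
    simp only [norm_smul, norm_inv, norm_norm]
    exact inv_mul_cancel₀ (hpos q hq).ne'
  obtain ⟨v, -, hv⟩ := (isCompact_sphere (0 : E N) 1).ultrafilter_le_nhds (U.map u)
    (by
      rw [le_principal_iff]
      exact hUS.mono hsph)
  have hv' : Tendsto u (U : Filter (E N × E N)) (𝓝 v) := hv
  refine ⟨v, ?_, fun F hF hF0 => ?_⟩
  · have hρ : ContDiffAt ℝ ∞ ρ p := hd.smooth.contDiffAt (isOpen_E0.mem_nhds (KS.ne0 hK hpK))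
    have h2 : Tendsto (fun q : E N × E N => q.2) (U : Filter (E N × E N)) (𝓝 p) :=
      (continuous_snd.tendsto (p, p)).mono_left hUp
    have h3 : Tendsto (fun q => av ρ q.2 (u q)) (U : Filter (E N × E N)) (𝓝 (av ρ p v)) := by
      refine tendsto_finsetSum _ fun j _ => Tendsto.mul ?_ ?_
      · exact (contDiffAt_dz j (contDiffAt_cx hρ)).continuousAt.tendsto.comp h2
      · exact ((contDiff_coord (n := 0) j).continuous.tendsto v).comp hv'
    have h4 : c ≤ ‖av ρ p v‖ := by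
      refine ge_of_tendsto h3.norm (hUS.mono fun q hq => ?_)
      rw [hu]
      simp only [av_rsmul, norm_mul, Complex.norm_real, norm_inv, norm_norm]
      rw [le_inv_mul_iff₀ (hpos q hq), mul_comm]
      exact hq.2.2.le
    intro h0
    rw [h0, norm_zero] at h4
    linarith
  · have hs := (hF.hasStrictFDerivAt one_ne_zero).isLittleO
    have h3 : Tendsto (fun q => fderiv ℝ F p (u q)) (U : Filter (E N × E N))
        (𝓝 (fderiv ℝ F p v)) := ((fderiv ℝ F p).continuous.tendsto v).comp hv'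
    refine norm_le_zero_iff.1 (le_of_forall_pos_le_add fun η hη => ?_)
    rw [zero_add]
    have h1 : ∀ᶠ q : E N × E N in 𝓝 (p, p), q.1 ∈ K → F q.1 = 0 :=
      (continuous_fst.tendsto (p, p)).eventually hF0
    have h2 : ∀ᶠ q : E N × E N in 𝓝 (p, p), q.2 ∈ K → F q.2 = 0 :=
      (continuous_snd.tendsto (p, p)).eventually hF0
    refine le_of_tendsto h3.norm ?_
    filter_upwards [hUS, hUp h1, hUp h2, hUp (hs.def hη)] with q hq hq1 hq2 hq3
    have e1 : F q.1 = 0 := hq1 hq.1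
    have e2 : F q.2 = 0 := hq2 hq.2.1
    have hq4 : ‖F q.1 - F q.2 - fderiv ℝ F p (q.1 - q.2)‖ ≤ η * ‖q.1 - q.2‖ := hq3
    rw [e1, e2, sub_self, zero_sub, norm_neg] at hq4
    rw [hu]
    simp only [map_smul, norm_smul, norm_inv, norm_norm]
    rw [inv_mul_le_iff₀ (hpos q hq), mul_comm]
    exact hq4

theorem thick_k2 (pf : StmtPF) (h2 : StmtD2) {ρ : E N → ℝ} {K : Set (E N)} (hd : Dom ρ)
    (hK : KS ρ K) (hT : Tan ρ K) {p : E N} (hp : p ∈ K2 ρ K) (F : E N → ℂ)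
    (hF : ContDiffAt ℝ 1 F p) (hF0 : ∀ᶠ z in 𝓝 p, z ∈ K → F z = 0) (v : E N)
    (hv : fderiv ℝ ρ p v = 0) : fderiv ℝ F p v = 0 := by
  obtain ⟨v0, ha, hv0⟩ := exists_dir hd hK hp
  have hρ : ContDiffAt ℝ ∞ ρ p := hd.smooth.contDiffAt (isOpen_E0.mem_nhds (KS.ne0 hK hp.1))
  have hρd : DifferentiableAt ℝ ρ p := hρ.differentiableAt (by simp)
  have hre : ∀ u, fderiv ℝ ρ p u = 2 * (av ρ p u).re := fun u => (pf N).2.1 ρ p u hρd
  have h0 : (av ρ p v0).re = 0 := by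
    have h1 := hv0 (cx ρ) (contDiffAt_cx (hρ.of_le (by simp)))
      (Eventually.of_forall fun z hz => by simp [cx, hK.bd z hz])
    have h3 := (ofRealCLM.hasFDerivAt.comp p hρd.hasFDerivAt).fderiv
    have h4 := congrArg (fun A : E N →L[ℝ] ℂ => A v0) h3
    simp only [ContinuousLinearMap.comp_apply, ofRealCLM_apply] at h4
    have h5 : ((fderiv ℝ ρ p v0 : ℝ) : ℂ) = 0 := h4.symm.trans h1
    rw [hre, ofReal_eq_zero] at h5
    linarith
  have h1 : (av ρ p v).re = 0 := by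
    rw [hre] at hv
    linarith
  have him : (av ρ p v0).im ≠ 0 := fun h => ha (Complex.ext h0 h)
  have hw : av ρ p (v - ((av ρ p v).im / (av ρ p v0).im) • v0) = 0 := by
    rw [av_sub, av_rsmul]
    apply Complex.ext
    · simp only [sub_re, re_ofReal_mul, h0, h1, zero_re]
      ring
    · simp only [sub_im, im_ofReal_mul, zero_im]
      field_simp
      ring
  have h3 := (((h2 N ρ K hd hK).2 hT p hp.1 F (hF.differentiableAt one_ne_zero) hF0) _ hw).1
  rw [map_sub, map_smul, hv0 F hF hF0, smul_zero, sub_zero] at h3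
  exact h3

theorem d3 (L : Lv0) (h1 : StmtD1) (hg : StmtGR) (hf : StmtFLW) (h2 : StmtD2) (hp : StmtFP)
    (hc : StmtCH) : StmtD3 := by
  intro N ρ K hd hM
  have hK := hM.1
  have hP := h1 N ρ K hd hM
  have hT := (h2 N ρ K hd hK).1 hP
  by_cases hthin : Thin ρ K
  · exact Or.inr hthin
  left
  have hne : (K2 ρ K).Nonempty := by
    unfold Thin at hthin
    push Not at hthin
    obtain ⟨p, hpK, c, hc0, h⟩ := hthin
    exact ⟨p, hpK, c, hc0, h⟩
  obtain ⟨hsub, hK'⟩ := ks_closure L.pf hd hK hne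
  have hP' := pn_closure L.pf hg hf hc hd hK hP
  have heq := hM.2.2 _ hsub hK' ((hp N).2 ρ _ hd hK' ((h2 N ρ _ hd hK').1 hP'))
  intro p hpK F hF hF0 v hv
  have hcl : p ∈ closure (K2 ρ K) := (heq.symm ▸ hpK : p ∈ closure (K2 ρ K) \ {0}).1
  have hp0 := KS.ne0 hK hpK
  have hρ : ContDiffAt ℝ ∞ ρ p := hd.smooth.contDiffAt (isOpen_E0.mem_nhds hp0)
  obtain ⟨n, hn⟩ : ∃ n, fderiv ℝ ρ p n ≠ 0 := by
    by_contra hcon
    push Not at hcon
    exact hd.reg p hp0 (hK.bd p hpK) (ContinuousLinearMap.ext hcon)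
  have hF1 : ContDiffAt ℝ 1 F p := hF.of_le (by simp)
  have c1 : ContinuousAt (fderiv ℝ ρ) p := hρ.continuousAt_fderiv (by simp)
  have c2 : ContinuousAt (fderiv ℝ F) p := hF1.continuousAt_fderiv one_ne_zero
  set H : E N → ℂ := fun q => fderiv ℝ F q (fderiv ℝ ρ q n • v - fderiv ℝ ρ q v • n) with hH
  have c3 : ContinuousAt H p :=
    c2.clm_apply (((c1.clm_apply continuousAt_const).smul continuousAt_const).sub
      ((c1.clm_apply continuousAt_const).smul continuousAt_const))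
  have : (𝓝[K2 ρ K] p).NeBot := mem_closure_iff_nhdsWithin_neBot.1 hcl
  have hz : ∀ᶠ q in 𝓝[K2 ρ K] p, H q = 0 := by
    filter_upwards [self_mem_nhdsWithin, nhdsWithin_le_nhds (hF1.eventually (by simp)),
      nhdsWithin_le_nhds hF0.eventually_nhds] with q hq hq1 hq2
    refine thick_k2 L.pf h2 hd hK hT hq F hq1 hq2 _ ?_
    simp only [map_sub, map_smul, smul_eq_mul]
    ring
  have hH0 : H p = 0 :=
    tendsto_nhds_unique (c3.tendsto.mono_left nhdsWithin_le_nhds)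
      (tendsto_const_nhds.congr' (hz.mono fun q hq => hq.symm))
  simp only [hH, hv, zero_smul, sub_zero, map_smul] at hH0
  exact (smul_eq_zero.1 hH0).resolve_left hn

end Pool.Agent.MP_fcd29e_an.H84
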